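import Pool.Agent.helper55.ZI.Spec2

namespace Pool.Agent.helper58.ZI

open Pool.Agent.ZI

universe u

theorem mee_surj (hDEN : DEN_stmt.{u}) (A V : Type u) [Ring A] [AddCommGroup V] [Module A V]
    [IsSimpleModule A V] (b : ℕ) (y : Fin b → V) (J : Finset (Fin b))
    (hJ : ∀ l : Fin b → (V →ₗ[A] V), (∀ j ∈ J, l j = 0) → ∑ i, l i (y i) = 0 → ∀ i, l i = 0)
    (w : {i : Fin b // i ∉ J} → V) : ∃ a : A, ∀ i : {i : Fin b // i ∉ J}, a • y i.1 = w i := by
  classical
  let e := (Fintype.equivFin {i : Fin b // i ∉ J}).symm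
  have key := hDEN A V (Fintype.card {i : Fin b // i ∉ J}) (fun k => y (e k).1) (fun k => w (e k)) (by
    intro l hl
    have h1 : ∀ k, l k = 0 := by
      have h3 : ∀ i : Fin b, ((if h : i ∉ J then l (e.symm ⟨i, h⟩) else 0 : V →ₗ[A] V)) (y i) =
          if h : i ∉ J then l (e.symm ⟨i, h⟩) (y i) else 0 := by
        intro i
        split_ifs with h
        · rfl
        · rfl
      have h2 := hJ (fun i => if h : i ∉ J then l (e.symm ⟨i, h⟩) else 0) (by
        intro j hj
        simp [hj]) (by
        simp only [h3]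
        rw [← Fintype.sum_subtype_add_sum_subtype (fun i => i ∉ J)]
        have h4 : ∑ i : {x : Fin b // ¬ (x ∉ J)},
            (if h : (i : Fin b) ∉ J then l (e.symm ⟨i, h⟩) (y i) else 0) = 0 := by
          refine Finset.sum_eq_zero fun i _ => ?_
          rw [dif_neg i.2]
        rw [h4, add_zero, ← hl, ← Equiv.sum_comp e.symm (fun k => l k (y (e k).1))]
        refine Finset.sum_congr rfl fun i _ => ?_
        rw [dif_pos i.2, Equiv.apply_symm_apply])
      intro k
      have h4 := h2 (e k).1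
      simp only [(e k).2, not_false_eq_true, dif_pos, Subtype.coe_eta, Equiv.symm_apply_apply] at h4
      exact h4
    simp [h1])
  obtain ⟨a, ha⟩ := key
  refine ⟨a, fun i => ?_⟩
  have := ha (e.symm i)
  simpa using this

theorem mee_length (hDEN : DEN_stmt.{u}) (A V : Type u) [Ring A] [AddCommGroup V] [Module A V]
    [IsSimpleModule A V] (b ν : ℕ) (y : Fin b → V) (h : Small A y ν) :
    ((b - ν : ℕ) : ℕ∞) ≤ Module.length A (Submodule.span A {y}) := by
  classical
  obtain ⟨J, hJc, hJ⟩ := h
  let g : (Fin b → V) →ₗ[A] ({i : Fin b // i ∉ J} → V) :=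
    LinearMap.funLeft A V (fun i : {i : Fin b // i ∉ J} => i.1)
  let f : Submodule.span A {y} →ₗ[A] ({i : Fin b // i ∉ J} → V) :=
    g ∘ₗ (Submodule.span A {y}).subtype
  have hf : Function.Surjective f := by
    intro w
    obtain ⟨a, ha⟩ := mee_surj hDEN A V b y J hJ w
    refine ⟨⟨a • y, Submodule.smul_mem _ _ (Submodule.mem_span_singleton_self y)⟩, ?_⟩
    funext i
    exact ha i
  have h1 := Module.length_le_of_surjective f hf
  rw [Module.length_pi, Module.length_eq_one, mul_one] at h1
  refine le_trans ?_ h1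
  rw [ENat.card_eq_coe_fintype_card]
  have h2 : Fintype.card {i : Fin b // i ∉ J} = b - J.card := by
    rw [Fintype.card_subtype_compl, Fintype.card_fin, Fintype.card_coe]
  rw [h2]
  exact_mod_cast (by omega : b - ν ≤ b - J.card)

theorem MEE (hDEN : DEN_stmt.{u}) : MEE_stmt.{u} := by
  classical
  intro A V _ _ _ _ b ν y y' hb hy hy'
  have h1 := mee_length hDEN A V b ν y hy
  have h2 := mee_length hDEN A V b ν y' hy'
  have h3 : Submodule.span A {y} ⊓ Submodule.span A {y'} ≠ ⊥ := by
    intro hbot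
    let f : (Submodule.span A {y} × Submodule.span A {y'}) →ₗ[A] (Fin b → V) :=
      LinearMap.coprod (Submodule.span A {y}).subtype (- (Submodule.span A {y'}).subtype)
    have hf : Function.Injective f := by
      rw [← LinearMap.ker_eq_bot, LinearMap.ker_eq_bot']
      rintro ⟨p, q⟩ hpq
      have h4 : (p : Fin b → V) = q := by
        have h5 : (p : Fin b → V) + -(q : Fin b → V) = 0 := hpq
        exact eq_of_sub_eq_zero (by rw [sub_eq_add_neg]; exact h5)
      have h6 : (p : Fin b → V) ∈ Submodule.span A {y} ⊓ Submodule.span A {y'} :=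
        ⟨p.2, h4 ▸ q.2⟩
      rw [hbot, Submodule.mem_bot] at h6
      have h7 : (q : Fin b → V) = 0 := h4 ▸ h6
      exact Prod.ext (Subtype.ext h6) (Subtype.ext h7)
    have h4 := Module.length_le_of_injective f hf
    rw [Module.length_prod, Module.length_pi, Module.length_eq_one A V, mul_one,
      ENat.card_eq_coe_fintype_card, Fintype.card_fin] at h4
    have h5 : ((b - ν : ℕ) : ℕ∞) + ((b - ν : ℕ) : ℕ∞) ≤ (b : ℕ∞) := (add_le_add h1 h2).trans h4
    have h6 : (b - ν) + (b - ν) ≤ b := by exact_mod_cast h5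
    omega
  obtain ⟨z, hz, hz0⟩ := (Submodule.ne_bot_iff _).1 h3
  obtain ⟨a, ha⟩ := Submodule.mem_span_singleton.1 hz.1
  obtain ⟨a', ha'⟩ := Submodule.mem_span_singleton.1 hz.2
  refine ⟨a, a', fun i => ?_, ?_⟩
  · have h4 : a • y = a' • y' := ha.trans ha'.symm
    exact congrFun h4 i
  · by_contra hcon
    push Not at hcon
    apply hz0
    rw [← ha]
    funext i
    exact hcon i

end Pool.Agent.helper58.ZI
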